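import Pool.Agent.Lib.MP_551055_al.Matrices
import Pool.Agent.Lib.MP_551055_al.VNDefs

/-!
# Reduction to one group generated by two elements: definitions and statements of the modules
-/

set_option autoImplicit false

namespace Pool.Agent.Lib.MP_551055_al.Red

open Pool.Agent.Lib.MP_551055_al

universe u v

/-- `S` is a branch at the vertex `G₁` of a tree, cut off at an edge with stabiliser `H ≤ G₁`:
`S` is invariant under `H` from the left and under `G₁` from the right, different translates of `S`
by elements of `G₁` are disjoint, and `S g` and `S` are equal up to finitely many sets `H e`. -/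
structure Branch {G : Type u} [Group G] (G₁ H : Subgroup G) (S : Set G) : Prop where
  le : H ≤ G₁
  left : ∀ h ∈ H, ∀ s ∈ S, h * s ∈ S
  right : ∀ s ∈ S, ∀ x ∈ G₁, s * x ∈ S
  ind : ∀ x ∈ G₁, ∀ s ∈ S, x * s ∈ S → x ∈ H
  fin1 : ∀ g : G, ∃ E : Finset G, ∀ s ∈ S, s * g ∉ S → ∃ e ∈ E, s * e⁻¹ ∈ H
  fin2 : ∀ g : G, ∃ E : Finset G, ∀ s, s ∉ S → s * g ∈ S → ∃ e ∈ E, s * e⁻¹ ∈ H

/-- The two families of branches of the tree of an HNN extension at the vertex `G₁`. -/
structure TwoBranches {G : Type u} [Group G] (G₁ H H' : Subgroup G) (S S' : Set G) : Prop where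
  b : Branch G₁ H S
  b' : Branch G₁ H' S'
  cover : ∀ g : G, g ∈ G₁ ∨ (∃ x ∈ G₁, x * g ∈ S) ∨ ∃ x ∈ G₁, x * g ∈ S'
  d01 : ∀ g ∈ G₁, g ∉ S
  d02 : ∀ g ∈ G₁, g ∉ S'
  d12 : ∀ x ∈ G₁, ∀ s ∈ S, x * s ∉ S'

/-- Torsion-free groups, as in the problem. -/
def TF (G : Type u) [Group G] : Prop := ∀ g : G, IsOfFinOrder g → g = 1

/-- The image of the matrix `e` (rows act from the left). -/
abbrev Img {R : Type u} [Ring R] {n : ℕ} (e : Matrix (Fin n) (Fin n) R) :
    Submodule R (Fin n → R) := LinearMap.range (Matrix.toLinearMapRight' e)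

/-- Module 1. Stable freeness descends to a vertex group if the edge groups have stably free
projectives. -/
def StSLemma : Prop :=
  ∀ (G : Type u) [Group G] (G₁ H H' : Subgroup G) (S S' : Set G), TwoBranches G₁ H H' S S' →
    VN.ProjStFree H → VN.ProjStFree H' → ∀ (n : ℕ) (e : Matrix (Fin n) (Fin n) (MonoidAlgebra ℤ G₁)),
      e * e = e → StFree (MonoidAlgebra ℤ G) (Img (e.map (inc ℤ G₁.subtype))) →
        StFree (MonoidAlgebra ℤ G₁) (Img e)

/-- Module 2. Branches of HNN extensions. -/
def StTree : Prop :=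
  ∀ (G : Type u) [Group G] (A B : Subgroup G) (φ : A ≃* B),
    ∃ S S' : Set (HNNExtension G A B φ),
      TwoBranches (HNNExtension.of (φ := φ)).range (A.map (HNNExtension.of (φ := φ)))
        (B.map (HNNExtension.of (φ := φ))) S S'

/-- Module 3. HNN extensions of torsion-free groups are torsion-free. -/
def StTorsion : Prop :=
  ∀ (G : Type u) [Group G] (A B : Subgroup G) (φ : A ≃* B), TF G → TF (HNNExtension G A B φ)

/-- Module 4. A countable group `C` embeds in an HNN extension of `C × F₂` with free associated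
subgroups which is generated by two elements. -/
def StEmb : Prop :=
  ∀ (C : Type) [Group C] (c : ℤ → C), Subgroup.closure (Set.range c) = ⊤ → c 0 = 1 →
    ∃ (A B : Subgroup (C × FreeGroup Bool)) (φ : A ≃* B), IsFreeGroup A ∧ IsFreeGroup B ∧
      ∃ s t : HNNExtension (C × FreeGroup Bool) A B φ, Subgroup.closure {s, t} = ⊤

/-- Module 5. A countable torsion-free group which decides the question for all torsion-free
groups. -/
def StUniv : Prop :=
  ∃ (C : Type) (_ : Group C) (c : ℤ → C), Subgroup.closure (Set.range c) = ⊤ ∧ c 0 = 1 ∧ TF C ∧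
    (VN.ProjStFree C → ∀ (G : Type u) [Group G], TF G → VN.ProjStFree G)

/-- The module with generators `x₁, …, xₙ` and relations given by the rows of `M`. -/
abbrev Cok {R : Type u} [Ring R] {m n : ℕ} (M : Matrix (Fin m) (Fin n) R) : Type u :=
  (Fin n → R) ⧸ Submodule.span R (Set.range fun i => M i)

/-- The matrix `A + B s + C t` over `ℤ[G]`. -/
noncomputable def pencil {G : Type u} [Group G] (s t : G) {m n : ℕ}
    (A B C : Matrix (Fin m) (Fin n) ℤ) : Matrix (Fin m) (Fin n) (MonoidAlgebra ℤ G) :=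
  fun i j => MonoidAlgebra.single 1 (A i j) + MonoidAlgebra.single s (B i j) +
    MonoidAlgebra.single t (C i j)

/-- Module 6. Over `ℤ[G]`, `G` generated by `s` and `t`, it is enough to consider modules presented
by matrices `A + B s + C t`. -/
def StPencil : Prop :=
  ∀ (G : Type u) [Group G] (s t : G), Subgroup.closure {s, t} = ⊤ →
    (∀ (m n : ℕ) (A B C : Matrix (Fin m) (Fin n) ℤ),
      Module.Projective (MonoidAlgebra ℤ G) (Cok (pencil s t A B C)) →
        StFree (MonoidAlgebra ℤ G) (Cok (pencil s t A B C))) →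
    VN.ProjStFree G

/-- Module 0. Projective modules and idempotent matrices. -/
def StIdem : Prop :=
  ∀ (G : Type u) [Group G], (∀ (n : ℕ) (e : Matrix (Fin n) (Fin n) (MonoidAlgebra ℤ G)),
    e * e = e → StFree (MonoidAlgebra ℤ G) (Img e)) → VN.ProjStFree G

end Pool.Agent.Lib.MP_551055_al.Red
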