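import Pool.Agent.Lib.MP_551055_al.Red.Res

/-!
# Modules over the group ring of a subgroup: vectors with coefficients in finitely many orbits,
# and induced modules
-/

set_option autoImplicit false
set_option linter.unusedSectionVars false

namespace Pool.Agent.Lib.MP_551055_al.Red

open Pool.Agent.Lib.MP_551055_al
open MonoidAlgebra Classical

universe u v

variable {G : Type u} [Group G] {κ : Type}

/-- `ℤ[G]^κ` as a module over `ℤ[H]`. -/
def Vec (_H : Subgroup G) (κ : Type) : Type u := κ → MonoidAlgebra ℤ G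

noncomputable instance (H : Subgroup G) : AddCommGroup (Vec H κ) :=
  inferInstanceAs (AddCommGroup (κ → MonoidAlgebra ℤ G))

noncomputable instance (H : Subgroup G) : Module (MonoidAlgebra ℤ H) (Vec H κ) :=
  Module.compHom (κ → MonoidAlgebra ℤ G) (inc ℤ H.subtype)

theorem vec_smul_apply {H : Subgroup G} (a : MonoidAlgebra ℤ H) (y : Vec H κ) (j : κ) :
    (a • y) j = inc ℤ H.subtype a * y j := rfl

theorem vec_single_smul {H : Subgroup G} (x : H) (y : Vec H κ) :
    ((single x (1 : ℤ) : MonoidAlgebra ℤ H) • y : Vec H κ) = sh (x : G) (y : κ → MonoidAlgebra ℤ G) := by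
  funext j
  rw [vec_smul_apply, inc_single]
  rfl

/-- `T` is invariant under `H` from the left. -/
def LInv (H : Subgroup G) (T : Set G) : Prop := ∀ h ∈ H, ∀ g ∈ T, h * g ∈ T

theorem LInv.compl {H : Subgroup G} {T : Set G} (h : LInv H T) : LInv H Tᶜ := by
  intro x hx g hg hxg
  apply hg
  have := h _ (H.inv_mem hx) _ hxg
  simpa using this

theorem LInv.inter {H : Subgroup G} {T T' : Set G} (h : LInv H T) (h' : LInv H T') :
    LInv H (T ∩ T') := fun x hx g hg => ⟨h x hx g hg.1, h' x hx g hg.2⟩

theorem LInv.union {H : Subgroup G} {T T' : Set G} (h : LInv H T) (h' : LInv H T') :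
    LInv H (T ∪ T') := by
  rintro x hx g (hg | hg)
  · exact Or.inl (h x hx g hg)
  · exact Or.inr (h' x hx g hg)

/-- The vectors with coefficients in `T`. -/
def supSub (H : Subgroup G) (κ : Type) (T : Set G) (hT : LInv H T) :
    Submodule (MonoidAlgebra ℤ H) (Vec H κ) where
  carrier := {y | Sup T (y : κ → MonoidAlgebra ℤ G)}
  add_mem' := fun hy hz => Sup.add hy hz
  zero_mem' := Sup.zero T
  smul_mem' := by
    intro a y hy j g hg
    change (inc ℤ H.subtype a * (y : κ → MonoidAlgebra ℤ G) j).coeff g ≠ 0 at hg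
    obtain ⟨x, z, hx, hz, rfl⟩ := exists_of_mul_coeff_ne _ _ _ hg
    have hxH : x ∈ H := by
      by_contra hne
      apply hx
      apply inc_coeff_of_notMem
      rintro ⟨t, ht⟩
      exact hne (ht ▸ t.2)
    exact hT x hxH z (hy j z hz)

theorem mem_supSub {H : Subgroup G} {T : Set G} {hT : LInv H T} {y : Vec H κ} :
    y ∈ supSub H κ T hT ↔ Sup T (y : κ → MonoidAlgebra ℤ G) := Iff.rfl

/-- Restriction to `T` as a linear map over `ℤ[H]`. -/
noncomputable def resL (H : Subgroup G) (κ : Type) (T : Set G) (hT : LInv H T) :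
    Vec H κ →ₗ[MonoidAlgebra ℤ H] Vec H κ where
  toFun y := resv T (y : κ → MonoidAlgebra ℤ G)
  map_add' y z := map_add (resv T) _ _
  map_smul' a y := by
    funext j
    exact res_inc_mul H T hT a _

theorem resL_apply {H : Subgroup G} {T : Set G} {hT : LInv H T} (y : Vec H κ) :
    resL H κ T hT y = resv T (y : κ → MonoidAlgebra ℤ G) := rfl

/-- `D` is contained in finitely many cosets `H e`. -/
def OrbFin (H : Subgroup G) (D : Set G) : Prop := ∃ E : Finset G, ∀ g ∈ D, ∃ e ∈ E, g * e⁻¹ ∈ H

theorem OrbFin.union {H : Subgroup G} {D D' : Set G} (h : OrbFin H D) (h' : OrbFin H D') :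
    OrbFin H (D ∪ D') := by
  obtain ⟨E, hE⟩ := h
  obtain ⟨E', hE'⟩ := h'
  refine ⟨E ∪ E', ?_⟩
  rintro g (hg | hg)
  · obtain ⟨e, he, h⟩ := hE g hg
    exact ⟨e, Finset.mem_union_left _ he, h⟩
  · obtain ⟨e, he, h⟩ := hE' g hg
    exact ⟨e, Finset.mem_union_right _ he, h⟩

theorem free_orb [Fintype κ] (H : Subgroup G) (D : Set G) (hD : LInv H D) (hfin : OrbFin H D) :
    ∃ N : ℕ, Nonempty (supSub H κ D hD ≃ₗ[MonoidAlgebra ℤ H] (Fin N → MonoidAlgebra ℤ H)) := by
  obtain ⟨E, hE⟩ := hfin
  let r : G → G := fun g => (Quotient.mk (QuotientGroup.rightRel H) g).out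
  have hr : ∀ g, g * (r g)⁻¹ ∈ H := by
    intro g
    have h1 : (QuotientGroup.rightRel H) (r g) g := Quotient.mk_out g
    rwa [QuotientGroup.rightRel_apply] at h1
  have hr' : ∀ g g', g' * g⁻¹ ∈ H → r g = r g' := by
    intro g g' h
    have h1 : Quotient.mk (QuotientGroup.rightRel H) g = Quotient.mk (QuotientGroup.rightRel H) g' := by
      apply Quotient.sound
      change (QuotientGroup.rightRel H) g g'
      rwa [QuotientGroup.rightRel_apply]
    show (Quotient.mk (QuotientGroup.rightRel H) g).out = (Quotient.mk (QuotientGroup.rightRel H) g').out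
    rw [h1]
  obtain ⟨E', hE'⟩ : ∃ E' : Finset G, E' = (E.filter (· ∈ D)).image r := ⟨_, rfl⟩
  have hE1 : ∀ e ∈ E', r e = e ∧ e ∈ D := by
    intro e he
    rw [hE', Finset.mem_image] at he
    obtain ⟨a, ha, rfl⟩ := he
    refine ⟨hr' _ _ (hr a), ?_⟩
    have h1 := hD _ (H.inv_mem (hr a)) a (Finset.mem_filter.1 ha).2
    simpa using h1
  have hE2 : ∀ g ∈ D, ∃ e ∈ E', g * e⁻¹ ∈ H := by
    intro g hg
    obtain ⟨e, he, h⟩ := hE g hg
    have heD : e ∈ D := by
      have h1 := hD _ (H.inv_mem h) g hg
      simpa using h1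
    refine ⟨r e, ?_, ?_⟩
    · rw [hE']
      exact Finset.mem_image_of_mem _ (Finset.mem_filter.2 ⟨he, heD⟩)
    · have h1 := H.mul_mem h (hr e)
      simpa [mul_assoc] using h1
  have hinj : Function.Injective H.subtype := Subtype.val_injective
  let Φ : supSub H κ D hD →ₗ[MonoidAlgebra ℤ H] (κ × E' → MonoidAlgebra ℤ H) :=
    { toFun := fun y je => prj ℤ H.subtype hinj
        ((y.1 : κ → MonoidAlgebra ℤ G) je.1 * single (je.2 : G)⁻¹ 1)
      map_add' := by
        intro y z
        funext je
        change prj ℤ H.subtype hinj (((y.1 : κ → MonoidAlgebra ℤ G) je.1 +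
          (z.1 : κ → MonoidAlgebra ℤ G) je.1) * single (je.2 : G)⁻¹ 1) = _
        rw [add_mul, map_add]
        rfl
      map_smul' := by
        intro a y
        funext je
        change prj ℤ H.subtype hinj ((inc ℤ H.subtype a * (y.1 : κ → MonoidAlgebra ℤ G) je.1) *
          single (je.2 : G)⁻¹ 1) = a * _
        rw [mul_assoc, prj_inc_mul] }
  have hΦ : ∀ (y : supSub H κ D hD) (j : κ) (e : E') (h : H),
      (Φ y (j, e)).coeff h = ((y.1 : κ → MonoidAlgebra ℤ G) j).coeff ((h : G) * e) := by
    intro y j e h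
    change (prj ℤ H.subtype hinj ((y.1 : κ → MonoidAlgebra ℤ G) j *
      single (e : G)⁻¹ 1)).coeff h = _
    rw [prj_coeff, coeff_mul_single_apply, inv_inv, mul_one]
    rfl
  have hbij : Function.Bijective Φ := by
    constructor
    · rw [← LinearMap.ker_eq_bot, eq_bot_iff]
      intro y hy
      rw [LinearMap.mem_ker] at hy
      have h0 : (y.1 : κ → MonoidAlgebra ℤ G) = 0 := by
        funext j
        ext g
        by_contra hne
        have hgD : g ∈ D := y.2 j g hne
        obtain ⟨e, he, hge⟩ := hE2 g hgD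
        have h1 := hΦ y j ⟨e, he⟩ ⟨g * e⁻¹, hge⟩
        rw [hy] at h1
        simp only [inv_mul_cancel_right] at h1
        exact hne h1.symm
      rw [Submodule.mem_bot]
      exact Subtype.ext h0
    · intro f
      let y : κ → MonoidAlgebra ℤ G := fun j =>
        ∑ e : E', inc ℤ H.subtype (f (j, e)) * single (e : G) 1
      have hyc : ∀ j g, (y j).coeff g = ∑ e : E', (inc ℤ H.subtype (f (j, e))).coeff
          (g * (e : G)⁻¹) := by
        intro j g
        change (∑ e : E', inc ℤ H.subtype (f (j, e)) * single (e : G) 1).coeff g = _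
        rw [coeff_sum, Finsupp.finsetSum_apply]
        refine Finset.sum_congr rfl fun e _ => ?_
        rw [coeff_mul_single_apply, mul_one]
      have hyD : Sup D y := by
        intro j g hg
        rw [hyc] at hg
        obtain ⟨e, _, he⟩ := Finset.exists_ne_zero_of_sum_ne_zero hg
        have h1 : g * (e : G)⁻¹ ∈ H := by
          by_contra hne
          apply he
          apply inc_coeff_of_notMem
          rintro ⟨t, ht⟩
          exact hne (ht ▸ t.2)
        have h2 := hD _ h1 _ (hE1 e e.2).2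
        simpa using h2
      refine ⟨⟨y, hyD⟩, ?_⟩
      funext ⟨j, e'⟩
      ext h
      rw [hΦ]
      change (y j).coeff ((h : G) * e') = _
      rw [hyc, Finset.sum_eq_single e']
      · rw [mul_inv_cancel_right]
        exact inc_coeff_apply H.subtype hinj _ h
      · intro e _ hne
        apply inc_coeff_of_notMem
        rintro ⟨t, ht⟩
        apply hne
        have h3 : (e' : G) * (e : G)⁻¹ ∈ H := by
          have h4 : (h : G)⁻¹ * (t : G) ∈ H := H.mul_mem (H.inv_mem h.2) t.2
          rw [show (t : G) = (h : G) * e' * (e : G)⁻¹ from ht] at h4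
          simpa [mul_assoc] using h4
        have h5 := hr' _ _ h3
        rw [(hE1 e e.2).1, (hE1 e' e'.2).1] at h5
        exact Subtype.ext h5
      · intro h
        exact absurd (Finset.mem_univ _) h
  refine ⟨Fintype.card (κ × E'), ⟨(LinearEquiv.ofBijective Φ hbij).trans
    (LinearEquiv.funCongrLeft _ _ (Fintype.equivFin (κ × E')).symm)⟩⟩

end Pool.Agent.Lib.MP_551055_al.Red
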