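import Pool.Agent.Lib.MP_551055_al.Red.Defs

/-!
# Restriction of coefficients to subsets of a group
-/

set_option autoImplicit false
set_option linter.unusedSectionVars false

namespace Pool.Agent.Lib.MP_551055_al.Red

open Pool.Agent.Lib.MP_551055_al
open MonoidAlgebra Classical

universe u v

variable {G : Type u} [Group G]

section Res

/-- Restriction of the coefficients to the set `T`. -/
noncomputable def res (T : Set G) : MonoidAlgebra ℤ G →+ MonoidAlgebra ℤ G where
  toFun r := MonoidAlgebra.ofCoeff (r.coeff.filter (· ∈ T))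
  map_zero' := by
    ext g
    simp [Finsupp.filter_apply]
  map_add' r s := by
    ext g
    simp only [coeff_add, Finsupp.add_apply, Finsupp.filter_apply]
    split_ifs <;> simp

theorem res_coeff (T : Set G) (r : MonoidAlgebra ℤ G) (g : G) :
    (res T r).coeff g = if g ∈ T then r.coeff g else 0 := by
  unfold res
  simp [Finsupp.filter_apply]

theorem res_single_mul (T T' : Set G) (x : G) (c : ℤ) (r : MonoidAlgebra ℤ G)
    (h : ∀ g, g ∈ T' ↔ x * g ∈ T) : res T (single x c * r) = single x c * res T' r := by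
  ext g
  rw [res_coeff, coeff_single_mul_apply, coeff_single_mul_apply, res_coeff]
  by_cases hg : g ∈ T
  · rw [if_pos hg, if_pos]
    rw [h]
    simpa using hg
  · rw [if_neg hg, if_neg, mul_zero]
    rw [h]
    simpa using hg

theorem res_mul_inc (G₁ : Subgroup G) (T : Set G) (hT : ∀ g ∈ T, ∀ x ∈ G₁, g * x ∈ T)
    (r : MonoidAlgebra ℤ G) (a : MonoidAlgebra ℤ G₁) :
    res T (r * inc ℤ G₁.subtype a) = res T r * inc ℤ G₁.subtype a := by
  induction a using MonoidAlgebra.induction_linear with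
  | zero => simp
  | add a b ha hb => rw [map_add, mul_add, map_add, ha, hb, mul_add]
  | single x c =>
    ext g
    rw [res_coeff, inc_single, coeff_mul_single_apply, coeff_mul_single_apply, res_coeff]
    have h : g ∈ T ↔ g * (G₁.subtype x)⁻¹ ∈ T := by
      constructor
      · intro h
        exact hT g h _ (G₁.inv_mem x.2)
      · intro h
        have := hT _ h _ x.2
        simpa using this
    by_cases hg : g ∈ T
    · rw [if_pos hg, if_pos (h.1 hg)]
    · rw [if_neg hg, if_neg fun h' => hg (h.2 h'), zero_mul]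

theorem res_inc_mul (H : Subgroup G) (T : Set G) (hT : ∀ h ∈ H, ∀ g ∈ T, h * g ∈ T)
    (a : MonoidAlgebra ℤ H) (r : MonoidAlgebra ℤ G) :
    res T (inc ℤ H.subtype a * r) = inc ℤ H.subtype a * res T r := by
  induction a using MonoidAlgebra.induction_linear with
  | zero => simp
  | add a b ha hb => rw [map_add, add_mul, map_add, ha, hb, add_mul]
  | single x c =>
    rw [inc_single]
    refine res_single_mul T T _ _ _ fun g => ?_
    constructor
    · intro h
      exact hT _ x.2 g h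
    · intro h
      have := hT _ (H.inv_mem x.2) _ h
      simpa using this

theorem exists_of_mul_coeff_ne (a b : MonoidAlgebra ℤ G) (g : G) (h : (a * b).coeff g ≠ 0) :
    ∃ x y, a.coeff x ≠ 0 ∧ b.coeff y ≠ 0 ∧ x * y = g := by
  rw [coeff_mul, Finsupp.sum] at h
  obtain ⟨x, hx, h1⟩ := Finset.exists_ne_zero_of_sum_ne_zero h
  rw [Finsupp.sum] at h1
  obtain ⟨y, hy, h2⟩ := Finset.exists_ne_zero_of_sum_ne_zero h1
  refine ⟨x, y, Finsupp.mem_support_iff.1 hx, Finsupp.mem_support_iff.1 hy, ?_⟩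
  by_contra hne
  rw [if_neg hne] at h2
  exact h2 rfl

end Res

section Vec

variable {ι κ : Type}

/-- All coefficients of `y` outside `T` are zero. -/
def Sup (T : Set G) (y : ι → MonoidAlgebra ℤ G) : Prop :=
  ∀ j g, (y j).coeff g ≠ 0 → g ∈ T

/-- Restriction of vectors. -/
noncomputable def resv (T : Set G) : (ι → MonoidAlgebra ℤ G) →+ (ι → MonoidAlgebra ℤ G) where
  toFun y := fun j => res T (y j)
  map_zero' := by
    funext j
    exact map_zero _
  map_add' y z := by
    funext j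
    exact map_add _ _ _

theorem resv_apply (T : Set G) (y : ι → MonoidAlgebra ℤ G) (j : ι) :
    resv T y j = res T (y j) := rfl

theorem sup_resv (T : Set G) (y : ι → MonoidAlgebra ℤ G) : Sup T (resv T y) := by
  intro j g hg
  rw [resv_apply, res_coeff] at hg
  by_contra h
  exact hg (if_neg h)

theorem resv_of_sup {T : Set G} {y : ι → MonoidAlgebra ℤ G} (h : Sup T y) : resv T y = y := by
  funext j
  ext g
  rw [resv_apply, res_coeff]
  by_cases hg : g ∈ T
  · rw [if_pos hg]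
  · rw [if_neg hg]
    by_contra hne
    exact hg (h j g (Ne.symm hne))

theorem Sup.mono {T T' : Set G} {y : ι → MonoidAlgebra ℤ G} (h : Sup T y) (hT : T ⊆ T') :
    Sup T' y := fun j g hg => hT (h j g hg)

theorem resv_of_disj {T T' : Set G} {y : ι → MonoidAlgebra ℤ G} (h : Sup T' y)
    (hd : ∀ g ∈ T', g ∉ T) : resv T y = 0 := by
  funext j
  ext g
  rw [resv_apply, res_coeff]
  by_cases hg : g ∈ T
  · rw [if_pos hg]
    by_contra hne
    exact hd g (h j g hne) hg
  · rw [if_neg hg]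
    rfl

theorem eq_zero_of_sup {T T' : Set G} {y : ι → MonoidAlgebra ℤ G} (h : Sup T y) (h' : Sup T' y)
    (hd : ∀ g ∈ T', g ∉ T) : y = 0 := by
  funext j
  ext g
  by_contra hne
  exact hd g (h' j g hne) (h j g hne)

theorem Sup.zero (T : Set G) : Sup T (0 : ι → MonoidAlgebra ℤ G) := by
  intro j g hg
  exact absurd rfl hg

theorem Sup.add {T : Set G} {y z : ι → MonoidAlgebra ℤ G} (hy : Sup T y) (hz : Sup T z) :
    Sup T (y + z) := by
  rw [← resv_of_sup hy, ← resv_of_sup hz, ← map_add]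
  exact sup_resv _ _

theorem Sup.resv {T T' : Set G} {y : ι → MonoidAlgebra ℤ G} (h : Sup T y) :
    Sup (T ∩ T') (resv T' y) := by
  intro j g hg
  rw [resv_apply, res_coeff] at hg
  by_cases hgT : g ∈ T'
  · rw [if_pos hgT] at hg
    exact ⟨h j g hg, hgT⟩
  · rw [if_neg hgT] at hg
    exact absurd rfl hg

theorem resv_add_compl (T T' : Set G) (y : ι → MonoidAlgebra ℤ G) (h : ∀ g, g ∈ T' ↔ g ∉ T) :
    resv T y + resv T' y = y := by
  funext j
  ext g
  rw [Pi.add_apply, coeff_add, Finsupp.add_apply, resv_apply, resv_apply, res_coeff, res_coeff]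
  by_cases hg : g ∈ T
  · rw [if_pos hg, if_neg fun h' => (h g).1 h' hg, add_zero]
  · rw [if_neg hg, if_pos ((h g).2 hg), zero_add]

/-- Left multiplication by a group element. -/
noncomputable def sh (x : G) : (ι → MonoidAlgebra ℤ G) →+ (ι → MonoidAlgebra ℤ G) where
  toFun y := fun j => single x 1 * y j
  map_zero' := by
    funext j
    exact mul_zero _
  map_add' y z := by
    funext j
    exact mul_add _ _ _

theorem sh_apply (x : G) (y : ι → MonoidAlgebra ℤ G) (j : ι) : sh x y j = single x 1 * y j := rfl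

theorem sh_sh (x x' : G) (y : ι → MonoidAlgebra ℤ G) : sh x (sh x' y) = sh (x * x') y := by
  funext j
  rw [sh_apply, sh_apply, sh_apply, ← mul_assoc, single_mul_single, mul_one]

theorem sh_one (y : ι → MonoidAlgebra ℤ G) : sh 1 y = y := by
  funext j
  rw [sh_apply]
  exact one_mul _

theorem sh_inv_sh (x : G) (y : ι → MonoidAlgebra ℤ G) : sh x⁻¹ (sh x y) = y := by
  rw [sh_sh, inv_mul_cancel, sh_one]

theorem sh_sh_inv (x : G) (y : ι → MonoidAlgebra ℤ G) : sh x (sh x⁻¹ y) = y := by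
  rw [sh_sh, mul_inv_cancel, sh_one]

theorem sup_sh {T T' : Set G} (x : G) {y : ι → MonoidAlgebra ℤ G} (h : Sup T y)
    (hT : ∀ g ∈ T, x * g ∈ T') : Sup T' (sh x y) := by
  intro j g hg
  rw [sh_apply, coeff_single_mul_apply, one_mul] at hg
  have := hT _ (h j _ hg)
  simpa using this

theorem resv_sh (T T' : Set G) (x : G) (y : ι → MonoidAlgebra ℤ G)
    (h : ∀ g, g ∈ T' ↔ x * g ∈ T) : resv T (sh x y) = sh x (resv T' y) := by
  funext j
  rw [resv_apply, sh_apply, sh_apply, resv_apply]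
  exact res_single_mul T T' x 1 (y j) h

variable [Fintype ι] [Fintype κ]

theorem sh_vecMul (x : G) (y : ι → MonoidAlgebra ℤ G) (M : Matrix ι κ (MonoidAlgebra ℤ G)) :
    Matrix.vecMul (sh x y) M = sh x (Matrix.vecMul y M) := by
  funext j
  rw [sh_apply]
  change ∑ i, (single x 1 * y i) * M i j = single x 1 * ∑ i, y i * M i j
  rw [Finset.mul_sum]
  exact Finset.sum_congr rfl fun i _ => mul_assoc _ _ _

theorem resv_vecMul_inc (G₁ : Subgroup G) (T : Set G) (hT : ∀ g ∈ T, ∀ x ∈ G₁, g * x ∈ T)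
    (y : ι → MonoidAlgebra ℤ G) (E : Matrix ι κ (MonoidAlgebra ℤ G₁)) :
    resv T (Matrix.vecMul y (E.map (inc ℤ G₁.subtype))) =
      Matrix.vecMul (resv T y) (E.map (inc ℤ G₁.subtype)) := by
  funext j
  rw [resv_apply]
  change res T (∑ i, y i * inc ℤ G₁.subtype (E i j)) = ∑ i, res T (y i) * inc ℤ G₁.subtype (E i j)
  rw [map_sum]
  exact Finset.sum_congr rfl fun i _ => res_mul_inc G₁ T hT _ _

theorem sup_vecMul {T T' : Set G} {Vs : Finset G} {y : ι → MonoidAlgebra ℤ G} (h : Sup T y)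
    (M : Matrix ι κ (MonoidAlgebra ℤ G)) (hM : ∀ i j g, (M i j).coeff g ≠ 0 → g ∈ Vs)
    (hT : ∀ g ∈ T, ∀ x ∈ Vs, g * x ∈ T') : Sup T' (Matrix.vecMul y M) := by
  intro j g hg
  change (∑ i, y i * M i j).coeff g ≠ 0 at hg
  rw [coeff_sum, Finsupp.finsetSum_apply] at hg
  obtain ⟨i, _, hi⟩ := Finset.exists_ne_zero_of_sum_ne_zero hg
  obtain ⟨x, z, hx, hz, rfl⟩ := exists_of_mul_coeff_ne _ _ _ hi
  exact hT x (h i x hx) z (hM i j z hz)

theorem exists_supp (M : Matrix ι κ (MonoidAlgebra ℤ G)) :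
    ∃ Vs : Finset G, ∀ i j g, (M i j).coeff g ≠ 0 → g ∈ Vs := by
  refine ⟨Finset.univ.biUnion fun i => Finset.univ.biUnion fun j => (M i j).coeff.support, ?_⟩
  intro i j g hg
  exact Finset.mem_biUnion.2 ⟨i, Finset.mem_univ i, Finset.mem_biUnion.2
    ⟨j, Finset.mem_univ j, Finsupp.mem_support_iff.2 hg⟩⟩

end Vec

section Proj

variable {ι κ : Type} [Fintype ι] [Fintype κ] [DecidableEq ι] [DecidableEq κ]

/-- The data: an idempotent `E` over `ℤ[G₁]` with free image over `ℤ[G]`. -/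
structure Dat (G₁ : Subgroup G) (ι κ : Type) [Fintype ι] [Fintype κ] [DecidableEq ι]
    [DecidableEq κ] where
  E : Matrix ι ι (MonoidAlgebra ℤ G₁)
  U : Matrix ι κ (MonoidAlgebra ℤ G)
  V : Matrix κ ι (MonoidAlgebra ℤ G)
  hVU : V * U = 1
  hUV : U * V = E.map (inc ℤ G₁.subtype)

variable {G₁ : Subgroup G} (d : Dat G₁ ι κ)

/-- The vectors `y` such that `y V` has coefficients in `T` only. -/
def Dat.N (T : Set G) (y : κ → MonoidAlgebra ℤ G) : Prop := Sup T (Matrix.vecMul y d.V)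

/-- The projection to `N T`. -/
noncomputable def Dat.p (T : Set G) : (κ → MonoidAlgebra ℤ G) →+ (κ → MonoidAlgebra ℤ G) where
  toFun y := Matrix.vecMul (resv T (Matrix.vecMul y d.V)) d.U
  map_zero' := by rw [Matrix.zero_vecMul, map_zero, Matrix.zero_vecMul]
  map_add' y z := by rw [Matrix.add_vecMul, map_add, Matrix.add_vecMul]

theorem Dat.p_apply (T : Set G) (y : κ → MonoidAlgebra ℤ G) :
    d.p T y = Matrix.vecMul (resv T (Matrix.vecMul y d.V)) d.U := rfl

theorem Dat.vu (y : κ → MonoidAlgebra ℤ G) :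
    Matrix.vecMul (Matrix.vecMul y d.V) d.U = y := by
  rw [Matrix.vecMul_vecMul, d.hVU, Matrix.vecMul_one]

theorem Dat.vE (y : κ → MonoidAlgebra ℤ G) :
    Matrix.vecMul (Matrix.vecMul y d.V) (d.E.map (inc ℤ G₁.subtype)) = Matrix.vecMul y d.V := by
  rw [← d.hUV, ← Matrix.vecMul_vecMul, d.vu]

/-- `T` is invariant under `G₁` from the right. -/
def RInv (G₁ : Subgroup G) (T : Set G) : Prop := ∀ g ∈ T, ∀ x ∈ G₁, g * x ∈ T

theorem RInv.compl {T : Set G} (h : RInv G₁ T) : RInv G₁ Tᶜ := by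
  intro g hg x hx hgx
  apply hg
  have := h _ hgx _ (G₁.inv_mem hx)
  simpa using this

theorem Dat.pv {T : Set G} (hT : RInv G₁ T) (y : κ → MonoidAlgebra ℤ G) :
    Matrix.vecMul (d.p T y) d.V = resv T (Matrix.vecMul y d.V) := by
  rw [d.p_apply, Matrix.vecMul_vecMul, d.hUV, ← resv_vecMul_inc G₁ T hT, d.vE]

theorem Dat.N_p {T : Set G} (hT : RInv G₁ T) (y : κ → MonoidAlgebra ℤ G) : d.N T (d.p T y) := by
  unfold Dat.N
  rw [d.pv hT]
  exact sup_resv _ _

theorem Dat.p_of_N {T : Set G} {y : κ → MonoidAlgebra ℤ G} (h : d.N T y) : d.p T y = y := by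
  rw [d.p_apply, resv_of_sup h, d.vu]

theorem Dat.p_of_disj {T T' : Set G} {y : κ → MonoidAlgebra ℤ G} (h : d.N T' y)
    (hd : ∀ g ∈ T', g ∉ T) : d.p T y = 0 := by
  rw [d.p_apply, resv_of_disj h hd, Matrix.zero_vecMul]

theorem Dat.p_add_compl (T T' : Set G) (y : κ → MonoidAlgebra ℤ G) (h : ∀ g, g ∈ T' ↔ g ∉ T) :
    d.p T y + d.p T' y = y := by
  rw [d.p_apply, d.p_apply, ← Matrix.add_vecMul, resv_add_compl T T' _ h, d.vu]

theorem Dat.N_zero (T : Set G) : d.N T 0 := by
  unfold Dat.N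
  rw [Matrix.zero_vecMul]
  exact Sup.zero T

theorem Dat.N_add {T : Set G} {y z : κ → MonoidAlgebra ℤ G} (hy : d.N T y) (hz : d.N T z) :
    d.N T (y + z) := by
  unfold Dat.N
  rw [Matrix.add_vecMul]
  exact Sup.add hy hz

theorem Dat.N_sh {T T' : Set G} {y : κ → MonoidAlgebra ℤ G} (x : G) (hy : d.N T y)
    (hT : ∀ g ∈ T, x * g ∈ T') : d.N T' (sh x y) := by
  unfold Dat.N
  rw [sh_vecMul]
  exact sup_sh x hy hT

theorem Dat.p_sh (T T' : Set G) (x : G) (y : κ → MonoidAlgebra ℤ G)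
    (h : ∀ g, g ∈ T' ↔ x * g ∈ T) : d.p T (sh x y) = sh x (d.p T' y) := by
  rw [d.p_apply, sh_vecMul, resv_sh T T' x _ h, sh_vecMul, ← d.p_apply]

end Proj

end Pool.Agent.Lib.MP_551055_al.Red
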